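import Mathlib
import Pool.Agent.Work.MP_caf7e3_lc.Defs
import Pool.Agent.Work.MP_caf7e3_lc.PadDefs
import Pool.Agent.Work.MP_caf7e3_lc.Nec
import Pool.Agent.Work.MP_caf7e3_lc.Suff
import Pool.Agent.Work.MP_caf7e3_lc.Pad
import Pool.Agent.Work.MP_caf7e3_lc.EnumEE

/-!
All Godel numberings in GNPTime are polynomial-time isomorphic if and only if scrambling
functions do not exist.
-/

namespace Pool.Agent.Results.MP_caf7e3_lc.IffNoScrambling

open Pool.Agent.Work.MP_caf7e3_lc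

theorem result : List.TFAE [
    ∀ φ ψ : List Bool → ℕ →. ℕ, GNPTime φ → GNPTime ψ → PolyIso ψ φ,
    ∀ g : List Bool → List Bool, PolyTime g → Function.Injective g →
      ∃ p q : List Bool → List Bool, PolyTime p ∧ PolyTime q ∧ (∀ x, q (p x) = x) ∧
        ∀ x, p x ∈ Set.range g,
    ¬ ∃ g : List Bool → List Bool, Scrambling g] := by
  have hstar : (∀ g : List Bool → List Bool, PolyTime g → Function.Injective g →
      ∃ p q : List Bool → List Bool, PolyTime p ∧ PolyTime q ∧ (∀ x, q (p x) = x) ∧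
        ∀ x, p x ∈ Set.range g) ↔ Star := by
    constructor
    · intro h g hg hgi
      obtain ⟨p, q, hp, hq, h1, h2⟩ := h g (Pool.Agent.Work.MP_0532f7_lc.FP.polyTime hg) hgi
      exact ⟨p, q, Pool.Agent.Work.MP_0532f7_lc.PolyTime.fp hp,
        Pool.Agent.Work.MP_0532f7_lc.PolyTime.fp hq, h1, h2⟩
    · intro h g hg hgi
      obtain ⟨p, q, hp, hq, h1, h2⟩ := h g (Pool.Agent.Work.MP_0532f7_lc.PolyTime.fp hg) hgi
      exact ⟨p, q, Pool.Agent.Work.MP_0532f7_lc.FP.polyTime hp,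
        Pool.Agent.Work.MP_0532f7_lc.FP.polyTime hq, h1, h2⟩
  tfae_have 1 → 2 := fun h => hstar.2 (star_of_iso h)
  tfae_have 2 → 3 := fun h => noscr_of_star (hstar.1 h)
  tfae_have 3 → 1 := fun h φ ψ hφ hψ => iso_of_star (star_of_noscr h) EE_primrec EE_fp
    (fun _ hf => EE_surj hf) hφ hψ
  tfae_finish

end Pool.Agent.Results.MP_caf7e3_lc.IffNoScrambling
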