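import Mathlib
import Pool.Agent.Work.MP_caf7e3_lc.LB.Main

/-!
No fixed degree bounds the running times of isomorphisms between Godel numberings in GNPTime,
even between numberings that are polynomial-time isomorphic with linear growth.
-/

namespace Pool.Agent.Results.MP_caf7e3_lc.NoFixedDegree

open Pool.Agent.Work.MP_caf7e3_lc

theorem result : ∃ ψ : List Bool → ℕ →. ℕ, GNPTime ψ ∧ ∀ d : ℕ,
    ∃ φ : List Bool → ℕ →. ℕ, GNPTime φ ∧
      (∃ (h k : List Bool → List Bool) (c : ℕ), PolyTime h ∧ PolyTime k ∧ (∀ i, k (h i) = i) ∧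
        (∀ i, h (k i) = i) ∧ (∀ i, ψ i = φ (h i)) ∧ (∀ i, (h i).length ≤ 3 * i.length + 3) ∧
        ∀ i, (k i).length ≤ i.length + c) ∧
      ∀ h k : List Bool → List Bool, (∀ i, k (h i) = i) → (∀ i, ψ i = φ (h i)) →
        InDegree d k → ¬ InDegree d h ∧ ¬ ∀ i, h (k i) = i :=
  ⟨nu, nu_gnp, lower_bound⟩

end Pool.Agent.Results.MP_caf7e3_lc.NoFixedDegree
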