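import Mathlib
import Pool.Agent.Work.MP_caf7e3_lc.TI.Main

/-!
Any two Godel numberings in GNPTime are isomorphic by an isomorphism which agrees with a
polynomial-time function at all but a fraction `1 / n ^ c` of the programs of every length `n`,
and so does its inverse.
-/

namespace Pool.Agent.Results.MP_caf7e3_lc.TypicalIsomorphism

open Pool.Agent.Work.MP_caf7e3_lc

theorem result (φ ψ : List Bool → ℕ →. ℕ) (hφ : GNPTime φ) (hψ : GNPTime ψ) (c : ℕ) :
    ∃ f g h k : List Bool → List Bool, PolyTime f ∧ PolyTime g ∧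
      Function.Injective f ∧ Function.Injective g ∧
      (∀ i, ψ i = φ (f i)) ∧ (∀ i, φ i = ψ (g i)) ∧
      (∀ i, k (h i) = i) ∧ (∀ i, h (k i) = i) ∧ (∀ i, ψ i = φ (h i)) ∧
      ∀ n, n ^ c * {i : List Bool | i.length = n ∧ h i ≠ f i}.ncard ≤ 2 ^ n ∧
        n ^ c * {i : List Bool | i.length = n ∧ k i ≠ g i}.ncard ≤ 2 ^ n :=
  typical hφ hψ c

end Pool.Agent.Results.MP_caf7e3_lc.TypicalIsomorphism
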