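import Mathlib
import Pool.Agent.Work.MP_caf7e3_lc.UB.Main

/-!
Any two Godel numberings in GNPTime are isomorphic by an isomorphism which, together with its
inverse, is computable in polynomial time with non-adaptive queries to a set in UP and with
polynomial advice.
-/

namespace Pool.Agent.Results.MP_caf7e3_lc.UPIsomorphism

open Pool.Agent.Work.MP_caf7e3_lc

theorem result (φ ψ : List Bool → ℕ →. ℕ) (hφ : GNPTime φ) (hψ : GNPTime ψ) :
    ∃ (U : Set (List Bool)) (a : ℕ → List Bool) (h k : List Bool → List Bool), InUP U ∧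
      PolyAdvice a ∧ PolyTimeTTAdv U a h ∧ PolyTimeTTAdv U a k ∧
      (InP U → PolyTimeAdv a h ∧ PolyTimeAdv a k) ∧ (∀ i, k (h i) = i) ∧
      (∀ i, h (k i) = i) ∧ ∀ i, ψ i = φ (h i) :=
  up_iso' hφ hψ

end Pool.Agent.Results.MP_caf7e3_lc.UPIsomorphism
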